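import Pool.Agent.H15.G.R_seed8.TH641.NW.Plane
import Pool.Agent.H15.G.R_seed8.TH603.EL.Key
import Pool.Agent.H15.G.R_seed8.TH387.SH.Tr

/-! The two transfers from the Tate triangles to the plane. -/

namespace Pool.Agent.TH641.NW

theorem keyE : KeyE := fun _ _ _ _ h0 h1 h => Pool.Agent.TH603.EL.Emp_key h0 h1 h

theorem keyS : KeyS := fun _ _ _ _ _ h0 h1 hirr h => Pool.Agent.TH387.SH.Sur_key h0 h1 hirr h

end Pool.Agent.TH641.NW
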