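import Mathlib

/-! Counting the integers in a union of intervals of decreasing lengths. -/

namespace Pool.Agent.TH641.NW

open Finset

/-- integers in the union of the intervals `[x + K s, x + Y + (K - 9) s]` -/
def U (x Y K : ℝ) : Set ℤ := {c | ∃ s : ℕ, x + K * s ≤ c ∧ (c : ℝ) ≤ x + Y + (K - 9) * s}

/-- the number of integers of the intervals `h, ..., Q`, where the first one starts at `x` -/
noncomputable def NN (x Y K : ℝ) (h Q : ℕ) : ℤ :=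
  (⌊x + Y + (K - 9) * h⌋ + 1 - ⌈x⌉) + ∑ s ∈ Ioc h Q, (⌊x + Y + (K - 9) * s⌋ + 1 - ⌈x + K * s⌉)

theorem icc_card {x y : ℝ} (h : x ≤ y) : ((Icc ⌈x⌉ ⌊y⌋).card : ℤ) = ⌊y⌋ + 1 - ⌈x⌉ := by
  rw [Int.card_Icc]
  apply Int.toNat_of_nonneg
  have h1 := Int.ceil_lt_add_one x
  have h2 := Int.lt_floor_add_one y
  have h3 : (⌈x⌉ : ℝ) < ((⌊y⌋ + 2 : ℤ) : ℝ) := by push_cast; linarith
  have h4 : ⌈x⌉ < ⌊y⌋ + 2 := by exact_mod_cast h3
  omega

theorem U_empty {x Y K : ℝ} (hY : Y < 0) {c : ℤ} (hc : c ∈ U x Y K) : False := by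
  obtain ⟨s, h1, h2⟩ := hc
  have : (0 : ℝ) ≤ s := Nat.cast_nonneg s
  linarith

/-- the upper bound -/
theorem card_le_NN {x Y K : ℝ} (hK : 9 ≤ K) {h Q : ℕ} (hhQ : h ≤ Q) (hQ1 : 9 * (Q : ℝ) ≤ Y)
    (hQ2 : Y < 9 * (Q + 1)) {B : Finset ℤ} (hB : ∀ c ∈ B, c ∈ U x Y K) : (B.card : ℤ) ≤ NN x Y K h Q := by
  classical
  have hsub : B ⊆ Icc ⌈x⌉ ⌊x + Y + (K - 9) * h⌋ ∪
      (Ioc h Q).biUnion fun s => Icc ⌈x + K * s⌉ ⌊x + Y + (K - 9) * s⌋ := by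
    intro c hc
    obtain ⟨s, h1, h2⟩ := hB c hc
    have hs0 : (0 : ℝ) ≤ s := Nat.cast_nonneg s
    rw [mem_union]
    rcases Nat.lt_or_ge h s with hs | hs
    · right
      rw [mem_biUnion]
      refine ⟨s, ?_, ?_⟩
      · rw [mem_Ioc]
        refine ⟨hs, ?_⟩
        have h3 : (s : ℝ) < Q + 1 := by linarith
        have h4 : s < Q + 1 := by exact_mod_cast h3
        omega
      · rw [Finset.mem_Icc]
        exact ⟨Int.ceil_le.2 h1, Int.le_floor.2 h2⟩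
    · left
      rw [Finset.mem_Icc]
      have hsR : (s : ℝ) ≤ h := by exact_mod_cast hs
      have h5 : 0 ≤ K * s := by positivity
      have h6 : (K - 9) * s ≤ (K - 9) * h := mul_le_mul_of_nonneg_left hsR (by linarith)
      exact ⟨Int.ceil_le.2 (by linarith), Int.le_floor.2 (by linarith)⟩
  have h1 := (card_le_card hsub).trans (card_union_le _ _)
  have h2 : (((Ioc h Q).biUnion fun s : ℕ => Icc ⌈x + K * s⌉ ⌊x + Y + (K - 9) * s⌋).card : ℤ) ≤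
      ∑ s ∈ Ioc h Q, (⌊x + Y + (K - 9) * s⌋ + 1 - ⌈x + K * s⌉) := by
    have h3 : (((Ioc h Q).biUnion fun s : ℕ => Icc ⌈x + K * s⌉ ⌊x + Y + (K - 9) * s⌋).card : ℤ) ≤
        ∑ s ∈ Ioc h Q, ((Icc ⌈x + K * s⌉ ⌊x + Y + (K - 9) * s⌋).card : ℤ) := by
      exact_mod_cast card_biUnion_le
    refine h3.trans (sum_le_sum fun s hs => le_of_eq (icc_card ?_))
    rw [mem_Ioc] at hs
    have hsR : (s : ℝ) ≤ Q := by exact_mod_cast hs.2
    linarith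
  have hh : (h : ℝ) ≤ Q := by exact_mod_cast hhQ
  have h3 : ((Icc ⌈x⌉ ⌊x + Y + (K - 9) * h⌋).card : ℤ) = ⌊x + Y + (K - 9) * h⌋ + 1 - ⌈x⌉ := by
    apply icc_card
    have h0 : (0 : ℝ) ≤ h := Nat.cast_nonneg h
    have : 0 ≤ (K - 9) * h := mul_nonneg (by linarith) h0
    linarith
  have h4 : (B.card : ℤ) ≤ ((Icc ⌈x⌉ ⌊x + Y + (K - 9) * h⌋).card : ℤ) +
      (((Ioc h Q).biUnion fun s : ℕ => Icc ⌈x + K * s⌉ ⌊x + Y + (K - 9) * s⌋).card : ℤ) := by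
    exact_mod_cast h1
  unfold NN
  linarith

/-- the lower bound -/
theorem exists_NN {x Y K : ℝ} (hK : 9 ≤ K) {h Q : ℕ} (hhQ : h ≤ Q) (hQ1 : 9 * (Q : ℝ) ≤ Y)
    (hh1 : ∀ s : ℕ, s < h → K ≤ Y - 9 * s) (hh2 : Y - 9 * h < K) :
    ∃ B : Finset ℤ, (∀ c ∈ B, c ∈ U x Y K) ∧ (B.card : ℤ) = NN x Y K h Q := by
  classical
  have hh : (h : ℝ) ≤ Q := by exact_mod_cast hhQ
  have hh0 : (0 : ℝ) ≤ h := Nat.cast_nonneg h
  refine ⟨Icc ⌈x⌉ ⌊x + Y + (K - 9) * h⌋ ∪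
      (Ioc h Q).biUnion fun s => Icc ⌈x + K * s⌉ ⌊x + Y + (K - 9) * s⌋, ?_, ?_⟩
  · intro c hc
    rw [mem_union] at hc
    rcases hc with hc | hc
    · rw [Finset.mem_Icc] at hc
      obtain ⟨h1, h2⟩ := hc
      have h1' := Int.ceil_le.1 h1
      have h2' := Int.le_floor.1 h2
      -- the largest `s ≤ h` with `x + K s ≤ c`
      obtain ⟨s, hs1, hs2, hs3⟩ : ∃ s : ℕ, s ≤ h ∧ x + K * s ≤ c ∧ (s = h ∨ (c : ℝ) < x + K * (s + 1)) := by
        by_contra hcon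
        push Not at hcon
        have key : ∀ s : ℕ, s ≤ h → x + K * s ≤ c := by
          intro s
          induction s with
          | zero => intro _; simpa using h1'
          | succ s ih =>
            intro hs
            have := (hcon s (by omega) (ih (by omega))).2
            push_cast
            exact this
        exact (hcon h le_rfl (key h le_rfl)).1 rfl
      refine ⟨s, hs2, ?_⟩
      rcases hs3 with rfl | hs3
      · exact h2'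
      · rcases Nat.lt_or_ge s h with hlt | hge
        · have := hh1 s hlt
          linarith
        · have : s = h := le_antisymm hs1 hge
          subst this
          exact h2'
    · rw [mem_biUnion] at hc
      obtain ⟨s, hs, hc⟩ := hc
      rw [Finset.mem_Icc] at hc
      exact ⟨s, Int.ceil_le.1 hc.1, Int.le_floor.1 hc.2⟩
  · have hsep : ∀ s t : ℕ, h ≤ s → s < t → ∀ c : ℤ, (c : ℝ) ≤ x + Y + (K - 9) * s → x + K * t ≤ c → False := by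
      intro s t hs hst c h1 h2
      have hsR : (h : ℝ) ≤ s := by exact_mod_cast hs
      have hst' : (s : ℝ) + 1 ≤ t := by exact_mod_cast hst
      have h3 : K * (s + 1) ≤ K * t := mul_le_mul_of_nonneg_left hst' (by linarith)
      linarith
    rw [card_union_of_disjoint, card_biUnion]
    · unfold NN
      push_cast
      rw [icc_card (by
        have : 0 ≤ (K - 9) * h := mul_nonneg (by linarith) hh0
        linarith)]
      congr 1
      refine sum_congr rfl fun s hs => icc_card ?_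
      rw [mem_Ioc] at hs
      have hsR : (s : ℝ) ≤ Q := by exact_mod_cast hs.2
      linarith
    · intro s hs t ht hne
      rw [Function.onFun, disjoint_left]
      intro c hc1 hc2
      rw [Finset.mem_Icc] at hc1 hc2
      rw [mem_coe, mem_Ioc] at hs ht
      rcases lt_or_gt_of_ne hne with h1 | h1
      · exact hsep s t hs.1.le h1 c (Int.le_floor.1 hc1.2) (Int.ceil_le.1 hc2.1)
      · exact hsep t s ht.1.le h1 c (Int.le_floor.1 hc2.2) (Int.ceil_le.1 hc1.1)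
    · rw [disjoint_left]
      intro c hc1 hc2
      rw [mem_biUnion] at hc2
      obtain ⟨t, ht, hc2⟩ := hc2
      rw [Finset.mem_Icc] at hc1 hc2
      rw [mem_Ioc] at ht
      exact hsep h t le_rfl ht.1 c (Int.le_floor.1 hc1.2) (Int.ceil_le.1 hc2.1)

/-- the total length -/
noncomputable def Lam (Y K : ℝ) (h Q : ℕ) : ℝ := Y + (K - 9) * h + ∑ s ∈ Ioc h Q, (Y - 9 * s)

theorem Lam_eq {Y K : ℝ} {h Q : ℕ} (hhQ : h ≤ Q) : Lam Y K h Q =
    K * h + ((Y - 9 * h) ^ 2 - (Y - 9 * Q) ^ 2) / 18 + ((Y - 9 * h) + (Y - 9 * Q)) / 2 := by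
  unfold Lam
  induction Q, hhQ using Nat.le_induction with
  | base => rw [Ioc_self, sum_empty]; ring
  | succ Q hQ ih =>
    rw [Finset.sum_Ioc_succ_top hQ, ← add_assoc, ih]
    push_cast
    ring

/-- the linear main term -/
noncomputable def ell (Y K : ℝ) : ℝ := K / 9 * (Y - K / 2 + 9 / 2)

theorem Lam_sub {Y K : ℝ} {h Q : ℕ} (hhQ : h ≤ Q) : Lam Y K h Q - ell Y K =
    (K - (Y - 9 * h)) ^ 2 / 18 - (K - (Y - 9 * h)) / 2 + ((Y - 9 * Q) / 2 - (Y - 9 * Q) ^ 2 / 18) := by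
  rw [Lam_eq hhQ]
  unfold ell
  ring

/-- the choice of the two indices -/
theorem exists_hQ {Y K : ℝ} (hK : 9 ≤ K) (hY : 0 ≤ Y) : ∃ h Q : ℕ, h ≤ Q ∧ 9 * (Q : ℝ) ≤ Y ∧
    Y < 9 * (Q + 1) ∧ (∀ s : ℕ, s < h → K ≤ Y - 9 * s) ∧ Y - 9 * h < K ∧ (K ≤ Y → K - 9 ≤ Y - 9 * h) ∧
    (Y < K → h = 0) := by
  have hQ1 := Nat.floor_le (show 0 ≤ Y / 9 by positivity)
  have hQ2 := Nat.lt_floor_add_one (Y / 9)
  rcases le_or_gt K Y with hKY | hKY
  · have h1 := Nat.floor_le (show 0 ≤ (Y - K) / 9 by apply div_nonneg <;> linarith)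
    have h2 := Nat.lt_floor_add_one ((Y - K) / 9)
    refine ⟨⌊(Y - K) / 9⌋₊ + 1, ⌊Y / 9⌋₊, ?_, by linarith, by linarith, ?_, ?_, ?_, ?_⟩
    · apply Nat.le_floor
      push_cast
      linarith
    · intro s hs
      have : (s : ℝ) ≤ ⌊(Y - K) / 9⌋₊ := by exact_mod_cast (by omega : s ≤ ⌊(Y - K) / 9⌋₊)
      linarith
    · push_cast; linarith
    · intro _; push_cast; linarith
    · intro h; linarith
  · refine ⟨0, ⌊Y / 9⌋₊, Nat.zero_le _, by linarith, by linarith, ?_, ?_, ?_, ?_⟩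
    · intro s hs; omega
    · push_cast; linarith
    · intro h; linarith
    · intro _; rfl

theorem floor_ceil_up (x y : ℝ) : ((⌊y⌋ + 1 - ⌈x⌉ : ℤ) : ℝ) ≤ y - x + 1 := by
  push_cast
  have h1 := Int.floor_le y
  have h2 := Int.le_ceil x
  linarith

theorem floor_ceil_low (x y : ℝ) : y - x - 1 < ((⌊y⌋ + 1 - ⌈x⌉ : ℤ) : ℝ) := by
  push_cast
  have h1 := Int.lt_floor_add_one y
  have h2 := Int.ceil_lt_add_one x
  linarith

theorem NN_up {x Y K : ℝ} {h Q : ℕ} (hhQ : h ≤ Q) : (NN x Y K h Q : ℝ) ≤ Lam Y K h Q + (Q - h + 1) := by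
  unfold NN Lam
  push_cast
  have h1 := floor_ceil_up x (x + Y + (K - 9) * h)
  push_cast at h1
  have h2 : ∑ s ∈ Ioc h Q, ((⌊x + Y + (K - 9) * s⌋ : ℝ) + 1 - ⌈x + K * s⌉) ≤
      ∑ s ∈ Ioc h Q, ((Y - 9 * (s : ℝ)) + 1) := by
    refine sum_le_sum fun s _ => ?_
    have h3 := floor_ceil_up (x + K * s) (x + Y + (K - 9) * s)
    push_cast at h3
    linarith
  rw [sum_add_distrib, sum_const, Nat.card_Ioc, nsmul_eq_mul, Nat.cast_sub hhQ] at h2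
  linarith

theorem NN_low {x Y K : ℝ} {h Q : ℕ} (hhQ : h ≤ Q) : Lam Y K h Q - (Q - h + 1) < (NN x Y K h Q : ℝ) := by
  unfold NN Lam
  push_cast
  have h1 := floor_ceil_low x (x + Y + (K - 9) * h)
  push_cast at h1
  have h2 : ∑ s ∈ Ioc h Q, ((Y - 9 * (s : ℝ)) - 1) ≤
      ∑ s ∈ Ioc h Q, ((⌊x + Y + (K - 9) * s⌋ : ℝ) + 1 - ⌈x + K * s⌉) := by
    refine sum_le_sum fun s _ => ?_
    have h3 := floor_ceil_low (x + K * s) (x + Y + (K - 9) * s)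
    push_cast at h3
    linarith
  rw [sum_sub_distrib, sum_const, Nat.card_Ioc, nsmul_eq_mul, Nat.cast_sub hhQ] at h2
  linarith

theorem Lam_up {Y K : ℝ} {h Q : ℕ} (hhQ : h ≤ Q) (_hQ2 : Y < 9 * (Q + 1)) (_hQ1 : 9 * (Q : ℝ) ≤ Y)
    (h2 : Y - 9 * h < K) (h3 : K - 9 ≤ Y - 9 * h) : Lam Y K h Q ≤ ell Y K + 9 / 8 := by
  have h4 := Lam_sub (Y := Y) (K := K) hhQ
  nlinarith [sq_nonneg (Y - 9 * Q - 9 / 2), mul_nonneg (sub_nonneg.2 h2.le) (sub_nonneg.2 h3)]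

theorem Lam_low {Y K : ℝ} {h Q : ℕ} (hhQ : h ≤ Q) (hQ2 : Y < 9 * (Q + 1)) (hQ1 : 9 * (Q : ℝ) ≤ Y) :
    ell Y K - 9 / 8 ≤ Lam Y K h Q := by
  have h4 := Lam_sub (Y := Y) (K := K) hhQ
  have h5 : 0 ≤ (Y - 9 * Q) * (9 - (Y - 9 * Q)) := mul_nonneg (by linarith) (by linarith)
  nlinarith [sq_nonneg (K - (Y - 9 * h) - 9 / 2)]

/-- rows with a full interval, upper bound -/
theorem up_row {x Y K : ℝ} (hK : 9 ≤ K) (hY : K ≤ Y) {B : Finset ℤ} (hB : ∀ c ∈ B, c ∈ U x Y K) :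
    (B.card : ℝ) ≤ ell Y K + K / 9 + 17 / 8 := by
  obtain ⟨h, Q, hhQ, hQ1, hQ2, -, h2, h3, -⟩ := exists_hQ hK (by linarith : 0 ≤ Y)
  have h4 := card_le_NN (x := x) hK hhQ hQ1 hQ2 hB
  have h5 : (B.card : ℝ) ≤ (NN x Y K h Q : ℝ) := by exact_mod_cast h4
  have h6 := NN_up (x := x) (Y := Y) (K := K) hhQ
  have h7 := Lam_up hhQ hQ2 hQ1 h2 (h3 hY)
  linarith

/-- the top row, upper bound -/
theorem up_top {x Y K : ℝ} (hK : 9 ≤ K) (hY0 : 0 ≤ Y) (hY : Y < K) {B : Finset ℤ}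
    (hB : ∀ c ∈ B, c ∈ U x Y K) : (B.card : ℝ) ≤ Y ^ 2 / 18 + 11 / 18 * Y + 17 / 8 := by
  obtain ⟨h, Q, hhQ, hQ1, hQ2, -, -, -, h3⟩ := exists_hQ hK hY0
  have h0 := h3 hY
  subst h0
  have h4 := card_le_NN (x := x) hK hhQ hQ1 hQ2 hB
  have h5 : (B.card : ℝ) ≤ (NN x Y K 0 Q : ℝ) := by exact_mod_cast h4
  have h6 := NN_up (x := x) (Y := Y) (K := K) hhQ
  rw [Lam_eq hhQ] at h6
  push_cast at h6
  have h7 : (Y - 9 * Q) / 2 - (Y - 9 * Q) ^ 2 / 18 ≤ 9 / 8 := by nlinarith [sq_nonneg (Y - 9 * Q - 9 / 2)]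
  linarith

/-- all rows, lower bound -/
theorem low_row {x Y K : ℝ} (hK : 9 ≤ K) (hY : 0 ≤ Y) :
    ∃ B : Finset ℤ, (∀ c ∈ B, c ∈ U x Y K) ∧ ell Y K - K / 9 - 17 / 8 < (B.card : ℝ) := by
  obtain ⟨h, Q, hhQ, hQ1, hQ2, h1, h2, -, -⟩ := exists_hQ hK hY
  obtain ⟨B, hB, hB2⟩ := exists_NN (x := x) hK hhQ hQ1 h1 h2
  refine ⟨B, hB, ?_⟩
  have h5 : (B.card : ℝ) = (NN x Y K h Q : ℝ) := by exact_mod_cast hB2
  rw [h5]
  have h6 := NN_low (x := x) (Y := Y) (K := K) hhQ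
  have h7 := Lam_low (Y := Y) (K := K) hhQ hQ2 hQ1
  linarith

end Pool.Agent.TH641.NW
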