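import Pool.Agent.H15.G.R_seed8.TH603.Cut.FlatE
import Pool.Agent.H15.G.R_seed8.TH603.Sur.Rows
import Pool.Agent.H15.G.R_seed8.TH641.NW.Cnt

/-! Flattening of a triangle of real slopes `(K - v, 9 - (K - v))` in the direction `(1, v)`, with the
exact rows. -/

namespace Pool.Agent.TH641.NW

open Finset Pool.Agent.TH176.Nag Pool.Agent.TH603.Sur Pool.Agent.TH603.Cut

/-- emptiness: flatten, sort, spread the top row -/
theorem Emp_T {ι : Type} {w : ι → ℕ} {α K D : ℝ} (v : ℤ) (hK : 0 ≤ K) {n' Z' : ℝ} {σ : ℕ}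
    (hσ : (σ : ℝ) + 1 ≤ n') {J : ℕ} {ρ : ℕ → ℝ}
    (hcard : ∀ (j : ℕ) (B : Finset ℤ), (∀ c ∈ B, c ∈ U (α + K * j) (D - K * j) K) → (B.card : ℝ) ≤ ρ j)
    (h1 : ∀ j < J, ρ j ≤ Z' - (n' - σ) - n' * j) (h2 : ρ J + σ * J ≤ Z')
    (h3 : ∀ j, J < j → ρ j < 1) (h : Emp w (Cl Z' n')) :
    Emp w (Reg α (α + D) (K - v) (9 - (K - v))) := by
  refine Emp_flat (S' := {p : ℤ × ℤ | 0 ≤ p.2 ∧ p.1 ∈ U (α + K * (p.2 : ℝ)) (D - K * (p.2 : ℝ)) K})
    1 v 1 0 (by ring) ?_ ?_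
  · rintro ⟨a, b⟩ T k ⟨g1, g2, g3⟩ ⟨g4, g5, g6⟩ hk
    simp only at g1 g2 g3 g4 g5 g6
    obtain ⟨s, rfl⟩ := Int.eq_ofNat_of_zero_le g1
    refine ⟨by simp, s, ?_, ?_⟩
    · push_cast at g2 g3 g5 g6 ⊢
      have hkR : (k : ℝ) ≤ T := by exact_mod_cast hk
      have h7 : K * k ≤ K * T := mul_le_mul_of_nonneg_left hkR hK
      linarith
    · push_cast at g2 g3 g5 g6 ⊢
      linarith
  · refine Emp_spread hσ (J := J) (ρ := ρ) (fun p hp => hp.1) ?_ h1 h2 h3 h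
    intro j B hB
    refine hcard j B fun c hc => ?_
    have := (hB c hc).2
    simpa using this

/-- independence: flatten and sort -/
theorem Sur_T {ι : Type} [Fintype ι] {w : ι → ℕ} {α K D : ℝ} (v : ℤ) (hK : 9 ≤ K) {n' Z' : ℝ}
    (hcard : ∀ j : ℕ, n' * j < Z' → ∃ B : Finset ℤ,
      (∀ c ∈ B, c ∈ U (α + K * j) (D - K * j) K) ∧ Z' - n' * j ≤ (B.card : ℝ))
    (h : Sur w (Op Z' n')) : Sur w (Reg α (α + D) (K - v) (9 - (K - v))) := by
  refine Sur_slabs 1 v 1 0 (by ring) ?_ h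
  rintro ⟨p, j⟩ ⟨g1, g2, g3⟩
  simp only at g1 g2 g3
  obtain ⟨j, rfl⟩ := Int.eq_ofNat_of_zero_le g2
  simp only [Int.cast_natCast] at g3
  have hp0 : (0 : ℝ) ≤ p := by exact_mod_cast g1
  obtain ⟨B, hB1, hB2⟩ := hcard j (by linarith)
  refine ⟨g1, g2, B, ?_, ?_⟩
  · have : (p : ℝ) < (B.card : ℝ) := by linarith
    exact_mod_cast this
  · intro c hc
    obtain ⟨s, h1, h2⟩ := hB1 c hc
    refine ⟨s, fun t ht1 ht2 => ?_⟩
    have ht1' : ((s : ℤ) : ℝ) ≤ t := by exact_mod_cast ht1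
    have ht2' : (t : ℝ) ≤ s + j := by
      have : (t : ℝ) ≤ (((s : ℤ) + (j : ℤ) : ℤ) : ℝ) := by exact_mod_cast ht2
      push_cast at this
      exact this
    rw [Int.cast_natCast] at ht1'
    refine ⟨?_, ?_, ?_⟩
    · simp only
      have : (0 : ℤ) ≤ s := by positivity
      omega
    · simp only
      push_cast
      have h5 : K * t ≤ K * (s + j) := mul_le_mul_of_nonneg_left ht2' (by linarith)
      linarith
    · simp only
      push_cast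
      have h5 : (K - 9) * s ≤ (K - 9) * t := mul_le_mul_of_nonneg_left ht1' (by linarith)
      linarith

end Pool.Agent.TH641.NW
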